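import Pool.Agent.Helper59.HR.Spec

/-! HR (helper59), part `NF`: nonfaces. -/

set_option autoImplicit false

namespace Pool.Agent.Helper23.HR.NF

open MvPolynomial Pool.Agent.Helper59.LP

lemma eval_xm {J : Type} [Fintype J] [DecidableEq J] (g : J → ℝ) (B : Finset J) (j : J)
    (hj : j ∈ B) (hg : g j = 0) : aeval g (xm B) = (0 : ℝ) := by
  unfold xm
  rw [map_prod]
  exact Finset.prod_eq_zero hj (by rw [aeval_X, hg])

theorem main (h : S_CF) : S_NF := by
  intro J _ _ d v ξ S F hS
  have key : ∀ σ ∈ S, ∀ B : Finset J, ¬ B ⊆ σ → ∀ f, tm v ξ σ (xm B * f) = 0 := by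
    intro σ hσ B hB f
    obtain ⟨j, hjB, hjσ⟩ := Finset.not_subset.1 hB
    have h1 := (h J d v ξ σ (hS σ hσ).1 (hS σ hσ).2).1 j hjσ
    unfold tm
    rw [LinearMap.smul_apply, AlgHom.toLinearMap_apply, map_mul, eval_xm _ B j hjB h1, zero_mul,
      smul_zero]
  refine ⟨fun f => ?_, fun B hB f => ?_, fun j hj => ?_⟩
  · unfold fnS dgS
    rw [LinearMap.comp_apply, LinearMap.comp_apply, LinearMap.sum_apply, LinearMap.sum_apply,
      Finset.sum_filter]
    refine Finset.sum_congr rfl fun σ hσ => ?_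
    split_ifs with hF
    · rfl
    · exact key σ hσ F hF f
  · unfold fnS dgS
    rw [LinearMap.comp_apply, LinearMap.sum_apply]
    refine Finset.sum_eq_zero fun σ hσ => ?_
    rw [LinearMap.mulLeft_apply]
    by_cases hF : F ⊆ σ
    · have hB' : ¬ B ⊆ σ := fun h' => hB σ hσ (Finset.union_subset hF h')
      rw [mul_left_comm]
      exact key σ hσ B hB' _
    · exact key σ hσ F hF _
  · unfold fnS
    refine LinearMap.ext fun f => ?_
    rw [LinearMap.comp_apply, LinearMap.comp_apply, LinearMap.comp_apply, LinearMap.mulLeft_apply,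
      LinearMap.mulLeft_apply, LinearMap.mulLeft_apply]
    congr 1
    unfold xm
    rw [Finset.prod_insert hj]
    ring

end Pool.Agent.Helper23.HR.NF
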