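import Pool.Agent.Helper59.HR.Spec

/-! HR (helper59), part `PATH`: induction along a ray with finitely many crossings. -/

set_option autoImplicit false

namespace Pool.Agent.Helper23.HR.PATH

open MvPolynomial Pool.Agent.Helper59.LP

lemma exists_right (T : Finset ℝ) (t e : ℝ) (he : 0 < e) : ∃ s, t < s ∧ s < t + e ∧ s ∉ T := by
  have h : (Set.Ioo t (t + e)).Infinite := Set.Ioo_infinite (by linarith)
  obtain ⟨s, hs, hsT⟩ := h.exists_notMem_finset T
  exact ⟨s, hs.1, hs.2, hsT⟩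

theorem main : S_PATH := by
  intro P T hS hreg hcr s0 hs0 hs0T
  obtain ⟨S, hS⟩ := hS
  by_contra hP
  set B : Set ℝ := {s | 0 ≤ s ∧ s ∉ T ∧ ¬ P s} with hB
  have hne : B.Nonempty := ⟨s0, hs0, hs0T, hP⟩
  have hbd : BddAbove B := by
    refine ⟨S, fun s hs => ?_⟩
    by_contra h
    exact hs.2.2 (hS s (not_le.1 h))
  set t := sSup B with ht
  have ht0 : 0 ≤ t := hs0.trans (le_csSup hbd ⟨hs0, hs0T, hP⟩)
  have hupper : ∀ s, t < s → s ∉ B := fun s hs hsB => absurd (le_csSup hbd hsB) (not_le.2 hs)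
  by_cases htT : t ∈ T
  · -- a crossing
    obtain ⟨b0, hb0⟩ := hne
    have hlt : ∀ b ∈ B, b < t := fun b hb =>
      lt_of_le_of_ne (le_csSup hbd hb) (fun h => hb.2.1 (h ▸ htT))
    have htpos : 0 < t := lt_of_le_of_lt hb0.1 (hlt b0 hb0)
    obtain ⟨e, he, hcr'⟩ := hcr t htT htpos
    obtain ⟨b, hb, hbt⟩ := exists_lt_of_lt_csSup (⟨b0, hb0⟩ : B.Nonempty)
      (show t - e < sSup B by rw [← ht]; linarith)
    obtain ⟨s, hs1, hs2, hs3⟩ := exists_right T t e he
    have := hcr' b s hbt (hlt b hb) hs1 hs2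
    exact hupper s hs1 ⟨by linarith, hs3, fun h => hb.2.2 (this.2 h)⟩
  · obtain ⟨e, he, hreg'⟩ := hreg t ht0 htT
    obtain ⟨b, hb, hbt⟩ := exists_lt_of_lt_csSup hne
      (show t - e < sSup B by rw [← ht]; linarith)
    have hbt' : b ≤ t := le_csSup hbd hb
    have h1 : ¬ P t := fun h => hb.2.2 ((hreg' b hb.1 (by rw [abs_lt]; constructor <;> linarith)).2 h)
    obtain ⟨s, hs1, hs2, hs3⟩ := exists_right T t e he
    have h2 := hreg' s (by linarith) (by rw [abs_lt]; constructor <;> linarith)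
    exact hupper s hs1 ⟨by linarith, hs3, fun h => h1 (h2.1 h)⟩

end Pool.Agent.Helper23.HR.PATH
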